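import Pool.Agent.H371.SA.Defs
import Pool.Graph.R_seed8.TH107.AT.Luck

/-!
S01283, task I: approximation of the kernel dimension of an integer matrix over the group ring by
a sequence of finite quotients.
-/

set_option autoImplicit false
set_option linter.unusedSectionVars false

open scoped InnerProductSpace ENNReal
open Filter Topology

namespace Pool.Agent.H371.SA.Ix

open Pool.Agent.H80R2
open Pool.Agent.H80R2.BC (L2 GMat vdim IsTr LInv Equi act kerA)
open Pool.Agent.H812R3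
open Pool.Agent.W656.VA
open Pool.Agent.TH107.AT


section rank

open Matrix

variable {m n : Type} [Fintype m] [Fintype n]

/-- a one-sided normal form over a field -/
theorem exists_factor {K : Type} [Field K] (A : Matrix m n K) (r : ℕ) (hr0 : A.rank = r) :
    (∃ (U : Matrix (Fin r) m K) (V : Matrix n (Fin r) K), U * A * V = 1) ∧
    ∃ (B : Matrix m (Fin r) K) (C : Matrix (Fin r) n K), A = B * C := by
  classical
  let T : (n → K) →ₗ[K] (m → K) := A.mulVecLin
  have hr : Module.finrank K (LinearMap.range T) = r := hr0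
  let e : LinearMap.range T ≃ₗ[K] (Fin r → K) :=
    LinearEquiv.ofFinrankEq _ _ (by rw [hr]; simp)
  obtain ⟨s, hs⟩ := T.rangeRestrict.exists_rightInverse_of_surjective
    (LinearMap.range_eq_top.2 T.surjective_rangeRestrict)
  obtain ⟨t, ht⟩ := (LinearMap.range T).subtype.exists_leftInverse_of_injective
    (LinearMap.ker_eq_bot.2 (LinearMap.range T).injective_subtype)
  have hT : T = (LinearMap.range T).subtype ∘ₗ T.rangeRestrict := rfl
  have hA : A = LinearMap.toMatrix' T := by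
    change A = LinearMap.toMatrix' (Matrix.toLin' A)
    rw [LinearMap.toMatrix'_toLin']
  constructor
  · refine ⟨LinearMap.toMatrix' (e.toLinearMap ∘ₗ t), LinearMap.toMatrix' (s ∘ₗ e.symm.toLinearMap), ?_⟩
    conv_lhs => rw [hA]
    rw [← LinearMap.toMatrix'_comp, ← LinearMap.toMatrix'_comp]
    have h1 : ((e.toLinearMap ∘ₗ t) ∘ₗ T) ∘ₗ (s ∘ₗ e.symm.toLinearMap) = LinearMap.id := by
      apply LinearMap.ext
      intro x
      have h2 : T.rangeRestrict (s (e.symm x)) = e.symm x := LinearMap.congr_fun hs _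
      have h3 : t (T.rangeRestrict (s (e.symm x)) : m → K) = T.rangeRestrict (s (e.symm x)) :=
        LinearMap.congr_fun ht (T.rangeRestrict (s (e.symm x)))
      change e (t (T.rangeRestrict (s (e.symm x)) : m → K)) = x
      rw [h3, h2, LinearEquiv.apply_symm_apply]
    rw [h1, LinearMap.toMatrix'_id]
  · refine ⟨LinearMap.toMatrix' ((LinearMap.range T).subtype ∘ₗ e.symm.toLinearMap),
      LinearMap.toMatrix' (e.toLinearMap ∘ₗ T.rangeRestrict), ?_⟩
    conv_lhs => rw [hA]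
    rw [← LinearMap.toMatrix'_comp]
    congr 1
    apply LinearMap.ext
    intro x
    change T x = ((e.symm (e (T.rangeRestrict x)) : LinearMap.range T) : m → K)
    rw [LinearEquiv.symm_apply_apply]
    rfl

/-- clearing denominators -/
theorem exists_den {m n : Type} [Fintype m] [Fintype n] (M : Matrix m n ℚ) :
    ∃ (N : ℕ) (M' : Matrix m n ℤ), N ≠ 0 ∧ (N : ℚ) • M = M'.map (Int.cast : ℤ → ℚ) := by
  classical
  refine ⟨∏ i, ∏ j, (M i j).den, Matrix.of fun i j =>
    ((((∏ i, ∏ j, (M i j).den : ℕ) : ℚ) * M i j)).num, ?_, ?_⟩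
  · exact Finset.prod_ne_zero_iff.2 fun i _ => Finset.prod_ne_zero_iff.2 fun j _ => (M i j).den_nz
  · ext i j
    rw [Matrix.smul_apply, Matrix.map_apply, Matrix.of_apply, smul_eq_mul]
    have h1 : (M i j).den ∣ ∏ i, ∏ j, (M i j).den :=
      (Finset.dvd_prod_of_mem (fun j => (M i j).den) (Finset.mem_univ j)).trans
        (Finset.dvd_prod_of_mem (fun i => ∏ j, (M i j).den) (Finset.mem_univ i))
    obtain ⟨c, hc⟩ := h1
    have h2 : ((∏ i, ∏ j, (M i j).den : ℕ) : ℚ) * M i j = ((c * (M i j).num : ℤ) : ℚ) := by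
      rw [hc]
      push_cast
      have h4 : ((M i j).den : ℚ) * M i j = (M i j).num := by
        rw [mul_comm]; exact Rat.mul_den_eq_num (M i j)
      rw [← h4]
      ring
    rw [h2, Rat.num_intCast]

theorem rank_int (Z : Matrix m n ℤ) (R : Type) [CommRing R] [IsDomain R] [CharZero R] :
    (Z.map (Int.cast : ℤ → R)).rank = (Z.map (Int.cast : ℤ → ℚ)).rank := by
  classical
  set A := Z.map (Int.cast : ℤ → ℚ) with hA
  obtain ⟨r, hr⟩ : ∃ r, A.rank = r := ⟨_, rfl⟩
  obtain ⟨⟨U, V, hUV⟩, B, C, hBC⟩ := exists_factor A r hr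
  rw [hr]
  obtain ⟨n1, U', hn1, hU⟩ := exists_den U
  obtain ⟨n2, V', hn2, hV⟩ := exists_den V
  obtain ⟨n3, B', hn3, hB⟩ := exists_den B
  obtain ⟨n4, C', hn4, hC⟩ := exists_den C
  have inj : Function.Injective (fun M : Matrix (Fin r) (Fin r) ℤ =>
      M.map (Int.cast : ℤ → ℚ)) := Matrix.map_injective Int.cast_injective
  have inj' : Function.Injective (fun M : Matrix m n ℤ =>
      M.map (Int.cast : ℤ → ℚ)) := Matrix.map_injective Int.cast_injective
  have mm : ∀ {a b c : Type} [Fintype b] (X : Matrix a b ℤ) (Y : Matrix b c ℤ) (S : Type)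
      [CommRing S], (X * Y).map (Int.cast : ℤ → S) = X.map (Int.cast : ℤ → S) *
        Y.map (Int.cast : ℤ → S) := by
    intro a b c _ X Y S _
    exact Matrix.map_mul (f := Int.castRingHom S)
  have h1 : U' * Z * V' = ((n1 * n2 : ℕ) : ℤ) • (1 : Matrix (Fin r) (Fin r) ℤ) := by
    apply inj
    change (U' * Z * V').map (Int.cast : ℤ → ℚ) = _
    rw [mm, mm, ← hU, ← hV, ← hA]
    have : ((n1 : ℚ) • U) * A * ((n2 : ℚ) • V) = ((n1 * n2 : ℕ) : ℚ) • (U * A * V) := by
      rw [Matrix.smul_mul, Matrix.smul_mul, Matrix.mul_smul, smul_smul]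
      push_cast
      rfl
    rw [this, hUV]
    ext i j
    change ((n1 * n2 : ℕ) : ℚ) * (1 : Matrix (Fin r) (Fin r) ℚ) i j =
      ((((n1 * n2 : ℕ) : ℤ) * (1 : Matrix (Fin r) (Fin r) ℤ) i j : ℤ) : ℚ)
    rw [Matrix.one_apply, Matrix.one_apply]
    split_ifs <;> simp
  have h2 : ((n3 * n4 : ℕ) : ℤ) • Z = B' * C' := by
    apply inj'
    change _ = (B' * C').map (Int.cast : ℤ → ℚ)
    rw [mm, ← hB, ← hC]
    have : ((n3 : ℚ) • B) * ((n4 : ℚ) • C) = ((n3 * n4 : ℕ) : ℚ) • A := by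
      rw [Matrix.smul_mul, Matrix.mul_smul, smul_smul, ← hBC]
      push_cast
      rfl
    rw [this, hA]
    ext i j
    simp [Matrix.smul_apply, Matrix.map_apply]
  apply le_antisymm
  · have h3 : (((n3 * n4 : ℕ) : R) • Z.map (Int.cast : ℤ → R)).rank ≤ r := by
      have : ((n3 * n4 : ℕ) : R) • Z.map (Int.cast : ℤ → R) =
          B'.map (Int.cast : ℤ → R) * C'.map (Int.cast : ℤ → R) := by
        rw [← mm, ← h2]
        ext i j
        simp [Matrix.smul_apply, Matrix.map_apply]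
      rw [this]
      refine (Matrix.rank_mul_le_left _ _).trans ?_
      refine (Matrix.rank_le_card_width _).trans ?_
      simp
    rwa [Matrix.rank_smul_of_mem_nonZeroDivisors] at h3
    apply mem_nonZeroDivisors_of_ne_zero
    exact_mod_cast Nat.mul_ne_zero hn3 hn4
  · have h3 : (((n1 * n2 : ℕ) : R) • (1 : Matrix (Fin r) (Fin r) R)).rank = r := by
      rw [Matrix.rank_smul_of_mem_nonZeroDivisors, Matrix.rank_one]
      · simp
      apply mem_nonZeroDivisors_of_ne_zero
      exact_mod_cast Nat.mul_ne_zero hn1 hn2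
    have h4 : ((n1 * n2 : ℕ) : R) • (1 : Matrix (Fin r) (Fin r) R) =
        U'.map (Int.cast : ℤ → R) * Z.map (Int.cast : ℤ → R) * V'.map (Int.cast : ℤ → R) := by
      rw [← mm, ← mm, h1]
      ext i j
      change ((n1 * n2 : ℕ) : R) * (1 : Matrix (Fin r) (Fin r) R) i j =
        ((((n1 * n2 : ℕ) : ℤ) * (1 : Matrix (Fin r) (Fin r) ℤ) i j : ℤ) : R)
      rw [Matrix.one_apply, Matrix.one_apply]
      split_ifs <;> simp
    rw [← h3, h4]
    exact (Matrix.rank_mul_le_left _ _).trans (Matrix.rank_mul_le_right _ _)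

end rank




section analytic

variable {ι κ G : Type} [Group G] [Fintype ι] [Fintype κ]

theorem rf_of_finite (Q : Type) [Group Q] [Finite Q] : RF Q := by
  intro S hS
  exact ⟨Q, inferInstance, MonoidHom.id Q, inferInstance, fun s hs => hS s hs⟩

theorem vdim_tendsto (X : Matrix κ ι (MonoidAlgebra ℂ G)) (hX : Itg X)
    (Q : ℕ → Type) [∀ n, Group (Q n)] [∀ n, Finite (Q n)] (f : ∀ n, G →* Q n)
    (hf : ∀ g : G, g ≠ 1 → ∀ᶠ n in atTop, f n g ≠ 1) :
    Tendsto (fun n => vdim (kr (mop (im (f n) X)))) atTop (𝓝 (vdim (kr (mop X)))) := by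
  classical
  rw [Metric.tendsto_nhds]
  intro ε hε
  set c : ℝ := 1 / (n1 X ^ 2 + 1) with hcdef
  have hpos : 0 < n1 X ^ 2 + 1 := by positivity
  have hc : 0 < c := by positivity
  have hc1 : c ≤ 1 := by
    rw [hcdef, div_le_one hpos]
    have := sq_nonneg (n1 X)
    linarith
  have hc2 : c * n1 X ^ 2 ≤ 1 := by
    rw [hcdef, one_div, inv_mul_le_iff₀ hpos]
    linarith
  obtain ⟨L, hL0, hL⟩ : ∃ L : ℕ, 0 < L ∧ (Fintype.card ι : ℝ) * (1 / L) < ε / 4 := by
    obtain ⟨L, hL⟩ := exists_nat_gt ((Fintype.card ι : ℝ) / (ε / 4))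
    have hL' : (0 : ℝ) < L := lt_of_le_of_lt (by positivity) hL
    refine ⟨L, by exact_mod_cast hL', ?_⟩
    rw [mul_one_div, div_lt_iff₀ hL']
    rw [div_lt_iff₀ (by positivity)] at hL
    linarith
  have h1 := (tendsto_err c hc L (Fintype.card ι)).eventually (gt_mem_nhds hL)
  have h2 := (mN_tendsto X c hc hc2).eventually
    (Metric.ball_mem_nhds _ (show 0 < ε / 4 by positivity))
  obtain ⟨N, hN1, hN2, hN0⟩ := (h1.and (h2.and (eventually_gt_atTop 0))).exists
  have hEx : ∀ᶠ n in atTop, ∀ g ∈ Ex X c N, f n g ≠ 1 := by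
    rw [Filter.eventually_all_finset]
    intro g hg
    exact hf g (Finset.mem_filter.1 hg).2
  filter_upwards [hEx] with n hn
  have h3 := mN_im (f n) X c N hn
  have h4 : c * n1 (im (f n) X) ^ 2 ≤ 1 := by
    refine le_trans ?_ hc2
    apply mul_le_mul_of_nonneg_left _ hc.le
    exact pow_le_pow_left₀ (n1_nonneg _) (n1_im_le (f n) X) 2
  have h5 := vdim_rf (rf_of_finite (Q n)) (im (f n) X) (itg_im (f n) X hX) c hc hc1 h4 N L hN0 hL0
  rw [h3] at h5
  rw [dist_eq_norm] at hN2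
  have h6 : ‖((vdim (kr (mop (im (f n) X))) - vdim (kr (mop X)) : ℝ) : ℂ)‖ < ε := by
    have e : ((vdim (kr (mop (im (f n) X))) - vdim (kr (mop X)) : ℝ) : ℂ) =
        (mN X c N - (vdim (kr (mop X)) : ℂ)) - (mN X c N - (vdim (kr (mop (im (f n) X))) : ℂ)) := by
      push_cast; ring
    rw [e]
    refine lt_of_le_of_lt (norm_sub_le _ _) ?_
    linarith
  rw [Complex.norm_real] at h6
  rw [Real.dist_eq]
  exact h6

/-! ### finite groups -/

variable {F : Type} [Group F] [Fintype F]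

/-- coordinates -/
noncomputable def crd (X : Type) [Fintype X] : L2 X ≃ₗ[ℂ] (X → ℂ) where
  toFun f := (f : X → ℂ)
  map_add' _ _ := rfl
  map_smul' _ _ := rfl
  invFun f := ⟨f, Memℓp.all f⟩
  left_inv _ := rfl
  right_inv _ := rfl

theorem crd_apply {X : Type} [Fintype X] (f : L2 X) (x : X) : crd X f x = f x := rfl

noncomputable instance {X : Type} [Fintype X] : FiniteDimensional ℂ (L2 X) :=
  (crd X).symm.finiteDimensional

/-- the standard basis -/
noncomputable def onb (X : Type) [Fintype X] [DecidableEq X] : OrthonormalBasis X ℂ (L2 X) :=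
  OrthonormalBasis.mk (v := fun x => (de x : L2 X)) (by
    rw [orthonormal_iff_ite]
    intro x y
    rw [inner_de, de, KP.dl_apply]) (by
    intro f _
    have h := KP.hasSum_dl f
    have h2 := (hasSum_fintype (fun x => f x • (KP.dl x : L2 X))).unique h
    rw [← h2]
    exact Submodule.sum_mem _ fun x _ => Submodule.smul_mem _ _ (Submodule.subset_span ⟨x, rfl⟩))

theorem onb_apply {X : Type} [Fintype X] [DecidableEq X] (x : X) : onb X x = de x := by
  rw [onb, OrthonormalBasis.coe_mk]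

theorem card_mul_vdim (K : Submodule ℂ (L2 (ι × F))) (hK : LInv K) :
    (Fintype.card F : ℝ) * vdim K = Module.finrank ℂ K := by
  classical
  have h1 : LinearMap.IsProj K (K.starProjection : L2 (ι × F) →ₗ[ℂ] L2 (ι × F)) :=
    ⟨fun x => Submodule.starProjection_apply_mem K x, fun x hx =>
      Submodule.starProjection_eq_self_iff.2 hx⟩
  have h2 := h1.trace
  rw [LinearMap.trace_eq_sum_inner _ (onb (ι × F))] at h2
  have h3 : ∀ (i : ι) (g : F), ⟪(de (i, g) : L2 (ι × F)), K.starProjection (de (i, g))⟫_ℂ =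
      ⟪(de (i, (1 : F)) : L2 (ι × F)), K.starProjection (de (i, (1 : F)))⟫_ℂ := by
    intro i g
    rw [de_eq_lt i g, equi_lt (equi_proj hK), inner_lt_lt]
  have h4 : ∑ x : ι × F, ⟪onb (ι × F) x,
      (K.starProjection : L2 (ι × F) →ₗ[ℂ] L2 (ι × F)) (onb (ι × F) x)⟫_ℂ =
      (Fintype.card F : ℂ) * trc K.starProjection := by
    rw [Fintype.sum_prod_type]
    unfold trc
    rw [Finset.mul_sum]
    refine Finset.sum_congr rfl fun i _ => ?_
    simp only [onb_apply]
    have : ∀ g : F, ⟪(de (i, g) : L2 (ι × F)), (K.starProjection : L2 (ι × F) →ₗ[ℂ] L2 (ι × F))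
        (de (i, g))⟫_ℂ = ⟪(de (i, (1 : F)) : L2 (ι × F)), K.starProjection (de (i, (1 : F)))⟫_ℂ :=
      fun g => h3 i g
    rw [Finset.sum_congr rfl fun g _ => this g]
    simp
  rw [h4, trc_proj] at h2
  exact_mod_cast h2

theorem crd_mop (Y : Matrix κ ι (MonoidAlgebra ℂ F)) (f : L2 (ι × F)) :
    crd (κ × F) (mop Y f) = (Mt Y).mulVec (crd (ι × F) f) := by
  funext ⟨k, g⟩
  rw [crd_apply, mop_apply, Matrix.mulVec, dotProduct, Fintype.sum_prod_type]
  refine Finset.sum_congr rfl fun i _ => ?_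
  rw [ra_apply, Finsupp.sum_fintype _ _ (fun _ => zero_mul _)]
  rw [← Equiv.sum_comp (Equiv.mulLeft g) (fun u => Mt Y (k, g) (i, u) * crd (ι × F) f (i, u))]
  refine Finset.sum_congr rfl fun u _ => ?_
  rw [Equiv.coe_mulLeft, Mt_apply, inv_mul_cancel_left]
  rfl

theorem vdim_fin (Y : Matrix κ ι (MonoidAlgebra ℂ F)) :
    (Fintype.card F : ℝ) * vdim (kr (mop Y)) + ((Mt Y).rank : ℝ) =
      (Fintype.card ι : ℝ) * Fintype.card F := by
  have h1 := card_mul_vdim (kr (mop Y)) (linv_kr (equi_mop Y))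
  rw [h1]
  have h2 : Module.finrank ℂ (kr (mop Y)) = Module.finrank ℂ (LinearMap.ker (Mt Y).mulVecLin) := by
    rw [← LinearEquiv.finrank_map_eq (crd (ι × F)) (kr (mop Y))]
    suffices h0 : Submodule.map ((crd (ι × F)) : L2 (ι × F) →ₗ[ℂ] (ι × F → ℂ)) (kr (mop Y)) =
        LinearMap.ker (Mt Y).mulVecLin by rw [h0]
    ext x
    simp only [Submodule.mem_map, mem_kr, LinearMap.mem_ker, Matrix.mulVecLin_apply]
    constructor
    · rintro ⟨f, hf, rfl⟩
      change (Mt Y).mulVec (crd (ι × F) f) = 0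
      rw [← crd_mop, hf, map_zero]
    · intro hx
      refine ⟨(crd (ι × F)).symm x, ?_, LinearEquiv.apply_symm_apply _ _⟩
      apply (crd (κ × F)).injective
      rw [crd_mop, LinearEquiv.apply_symm_apply, hx, map_zero]
  rw [h2]
  have h3 := LinearMap.finrank_range_add_finrank_ker (Mt Y).mulVecLin
  rw [Module.finrank_fintype_fun_eq_card, Fintype.card_prod] at h3
  rw [Matrix.rank]
  have h4 : ((Module.finrank ℂ (LinearMap.range (Mt Y).mulVecLin) : ℕ) : ℝ) +
    (Module.finrank ℂ (LinearMap.ker (Mt Y).mulVecLin) : ℕ) =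
      ((Fintype.card ι * Fintype.card F : ℕ) : ℝ) := by exact_mod_cast h3
  push_cast at h4
  linarith

end analytic

/-! ### the cokernel over a finite group -/

section coker

variable {ι κ R Q : Type} [Fintype ι] [Fintype κ] [CommRing R] [Group Q] [Fintype Q]

/-- coordinates -/
noncomputable def cq (κ R Q : Type) [CommRing R] [Fintype Q] :
    (κ → MonoidAlgebra R Q) ≃ₗ[R] (κ × Q → R) where
  toFun v p := (v p.1).coeff p.2
  map_add' _ _ := rfl
  map_smul' _ _ := rfl
  invFun w k := MonoidAlgebra.ofCoeff (Finsupp.equivFunOnFinite.symm (fun q => w (k, q)))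
  left_inv v := by
    funext k
    apply MonoidAlgebra.ext
    ext q
    rfl
  right_inv w := by
    funext p
    rfl

theorem cq_apply (v : κ → MonoidAlgebra R Q) (k : κ) (q : Q) :
    cq κ R Q v (k, q) = (v k).coeff q := rfl

/-- the integer matrix -/
def Zm (w : κ → ι → Q → ℤ) : Matrix (κ × Q) (ι × Q) ℤ :=
  Matrix.of fun p q => w p.1 q.1 (p.2⁻¹ * q.2)

theorem cq_vecMul (B : Matrix ι κ (MonoidAlgebra R Q)) (w : κ → ι → Q → ℤ)
    (hB : ∀ i k q, (B i k).coeff q = (w k i q⁻¹ : R)) (v : ι → MonoidAlgebra R Q) :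
    cq κ R Q (Matrix.vecMul v B) =
      ((Zm w).map (Int.cast : ℤ → R)).mulVec (cq ι R Q v) := by
  funext ⟨k, g⟩
  rw [cq_apply, Matrix.vecMul, Matrix.mulVec, dotProduct, dotProduct, Fintype.sum_prod_type,
    MonoidAlgebra.coeff_sum, Finsupp.finsetSum_apply]
  refine Finset.sum_congr rfl fun i _ => ?_
  rw [MonoidAlgebra.coeff_mul_apply_left, Finsupp.sum_fintype _ _ (fun _ => zero_mul _)]
  refine Finset.sum_congr rfl fun h _ => ?_
  rw [hB, cq_apply, Matrix.map_apply, mul_comm]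
  congr 2
  change _ = w k i (g⁻¹ * h)
  rw [mul_inv_rev, inv_inv]

theorem finrank_coker [IsDomain R] (B : Matrix ι κ (MonoidAlgebra R Q)) (w : κ → ι → Q → ℤ)
    (hB : ∀ i k q, (B i k).coeff q = (w k i q⁻¹ : R)) :
    Module.finrank R ((κ → MonoidAlgebra R Q) ⧸ LinearMap.range B.vecMulLinear) +
      ((Zm w).map (Int.cast : ℤ → R)).rank = Fintype.card κ * Fintype.card Q := by
  classical
  have hfin : Module.Finite R (κ → MonoidAlgebra R Q) := Module.Finite.equiv (cq κ R Q).symm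
  have h1 := ((LinearMap.range B.vecMulLinear).restrictScalars R).finrank_quotient_add_finrank
  have h2 : Module.finrank R ((LinearMap.range B.vecMulLinear).restrictScalars R) =
      ((Zm w).map (Int.cast : ℤ → R)).rank := by
    rw [← LinearEquiv.finrank_map_eq (cq κ R Q)
      ((LinearMap.range B.vecMulLinear).restrictScalars R), Matrix.rank]
    suffices h0 : Submodule.map ((cq κ R Q) : (κ → MonoidAlgebra R Q) →ₗ[R] (κ × Q → R))
        ((LinearMap.range B.vecMulLinear).restrictScalars R) =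
        LinearMap.range ((Zm w).map (Int.cast : ℤ → R)).mulVecLin by rw [h0]
    ext x
    simp only [Submodule.mem_map, Submodule.restrictScalars_mem, LinearMap.mem_range]
    constructor
    · rintro ⟨_, ⟨v, rfl⟩, rfl⟩
      exact ⟨cq ι R Q v, (cq_vecMul B w hB v).symm⟩
    · rintro ⟨y, rfl⟩
      refine ⟨_, ⟨(cq ι R Q).symm y, rfl⟩, ?_⟩
      change cq κ R Q (Matrix.vecMul ((cq ι R Q).symm y) B) = _
      rw [cq_vecMul B w hB, LinearEquiv.apply_symm_apply]
      rfl
  rw [h2, LinearEquiv.finrank_eq (cq κ R Q), Module.finrank_fintype_fun_eq_card,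
    Fintype.card_prod] at h1
  exact h1

end coker

/-! ### assembly -/

theorem level {G : Type} [Group G] {Q : Type} [Group Q] [Finite Q] (f : G →* Q) {ι κ : Type}
    [Fintype ι] [Fintype κ] (A : κ → ι → (G →₀ ℤ)) (p : ℕ) [Fact p.Prime]
    (B : Matrix ι κ (MonoidAlgebra ℤ_[p] Q))
    (hB : ∀ i k, B i k = (A k i).sum fun h z => MonoidAlgebra.single (f h)⁻¹ (z : ℤ_[p]))
    (X : Matrix κ ι (MonoidAlgebra ℂ G))
    (hX : ∀ k i g, (X k i).coeff g = (A k i g : ℂ)) :
    (Module.finrank ℤ_[p] ((κ → MonoidAlgebra ℤ_[p] Q) ⧸ LinearMap.range B.vecMulLinear) : ℝ) /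
      Nat.card Q = (Fintype.card κ : ℝ) - Fintype.card ι + vdim (kr (mop (im f X))) := by
  classical
  have : Fintype Q := Fintype.ofFinite Q
  let w : κ → ι → Q → ℤ := fun k i => (A k i).mapDomain f
  have hw : ∀ i k q, (B i k).coeff q = (w k i q⁻¹ : ℤ_[p]) := by
    intro i k q
    rw [hB]
    change _ = (((A k i).mapDomain f q⁻¹ : ℤ) : ℤ_[p])
    rw [Finsupp.mapDomain, Finsupp.sum_apply, Finsupp.sum, Finsupp.sum, MonoidAlgebra.coeff_sum,
      Finsupp.finsetSum_apply]
    push_cast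
    refine Finset.sum_congr rfl fun h _ => ?_
    rw [MonoidAlgebra.coeff_single, Finsupp.single_apply, Finsupp.single_apply]
    by_cases e : (f h)⁻¹ = q
    · rw [if_pos e, if_pos (by rw [← e, inv_inv])]
    · rw [if_neg e, if_neg (fun e2 => e (by rw [e2, inv_inv])), Int.cast_zero]
  have hMt : Mt (im f X) = (Zm w).map (Int.cast : ℤ → ℂ) := by
    ext ⟨k, g⟩ ⟨i, h⟩
    rw [Mt_apply, Matrix.map_apply]
    change ((X k i).coeff.mapDomain f) (g⁻¹ * h) = (((A k i).mapDomain f (g⁻¹ * h) : ℤ) : ℂ)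
    have hXc : (X k i).coeff = (A k i).mapRange (Int.cast : ℤ → ℂ) Int.cast_zero := by
      ext g
      rw [hX, Finsupp.mapRange_apply]
    rw [hXc]
    have h1 : Finsupp.mapDomain f ((A k i).mapRange (Int.cast : ℤ → ℂ) Int.cast_zero) =
        (Finsupp.mapDomain f (A k i)).mapRange (Int.cast : ℤ → ℂ) Int.cast_zero :=
      Finsupp.mapDomain_mapRange f (A k i) (Int.cast : ℤ → ℂ) Int.cast_zero
        (fun x y => Int.cast_add x y)
    rw [h1, Finsupp.mapRange_apply]
  have h1 := finrank_coker B w hw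
  have h2 := vdim_fin (im f X)
  rw [hMt] at h2
  have h3 := rank_int (Zm w) ℂ
  have h4 := rank_int (Zm w) ℤ_[p]
  rw [h4] at h1
  rw [h3] at h2
  have hc : (0 : ℝ) < Fintype.card Q := by exact_mod_cast Fintype.card_pos
  rw [Nat.card_eq_fintype_card, div_eq_iff hc.ne']
  have h5 : ((Module.finrank ℤ_[p] ((κ → MonoidAlgebra ℤ_[p] Q) ⧸
      LinearMap.range B.vecMulLinear) : ℕ) : ℝ) +
      (((Zm w).map (Int.cast : ℤ → ℚ)).rank : ℕ) = (Fintype.card κ : ℝ) * Fintype.card Q := by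
    exact_mod_cast h1
  nlinarith

end Pool.Agent.H371.SA.Ix

namespace Pool.Agent.H371.SA

open Filter Topology
open Pool.Agent.H80R2.BC (L2 GMat vdim kerA)
open Pool.Agent.W656.VA

/-- approximation by finite quotients -/
theorem approx {G : Type} [Group G] (Q : ℕ → Type) [∀ n, Group (Q n)] [∀ n, Finite (Q n)]
    (f : ∀ n, G →* Q n) (hf : ∀ g : G, g ≠ 1 → ∀ᶠ n in atTop, f n g ≠ 1)
    {ι κ : Type} [Fintype ι] [Fintype κ] (A : κ → ι → (G →₀ ℤ)) (p : ℕ) [Fact p.Prime]
    (B : ∀ n, Matrix ι κ (MonoidAlgebra ℤ_[p] (Q n)))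
    (hB : ∀ n i k, B n i k = (A k i).sum fun h z => MonoidAlgebra.single (f n h)⁻¹ (z : ℤ_[p])) :
    Tendsto (fun n => (Module.finrank ℤ_[p] ((κ → MonoidAlgebra ℤ_[p] (Q n)) ⧸
      LinearMap.range (B n).vecMulLinear) : ℝ) / Nat.card (Q n)) atTop
      (𝓝 ((Fintype.card κ : ℝ) - Fintype.card ι +
        vdim (kerA (fun k i => (A k i).mapRange (Int.cast : ℤ → ℂ) Int.cast_zero)))) := by
  let X : Matrix κ ι (MonoidAlgebra ℂ G) := Matrix.of fun k i =>
    MonoidAlgebra.ofCoeff ((A k i).mapRange (Int.cast : ℤ → ℂ) Int.cast_zero)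
  have hX : ∀ k i g, (X k i).coeff g = (A k i g : ℂ) := fun _ _ _ => rfl
  have h1 := Ix.vdim_tendsto X (fun k i g => ⟨A k i g, hX k i g⟩) Q f hf
  have h2 : kr (Pool.Agent.TH107.AT.mop X) =
      kerA (fun k i => (A k i).mapRange (Int.cast : ℤ → ℂ) Int.cast_zero) := (kerA_eq _).symm
  rw [h2] at h1
  have h3 := h1.const_add ((Fintype.card κ : ℝ) - Fintype.card ι)
  refine h3.congr fun n => ?_
  exact (Ix.level (f n) A p (B n) (hB n) X hX).symm

end Pool.Agent.H371.SA
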